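import Mathlib

set_option autoImplicit false

/-!
The real lemma at the end of the proof of the (non-symmetric) Mahler inequality: from a lower bound
for `∑ m, (1-f)^(k-m) * f^m * v m`, valid for all `f`, to an entropy inequality for a monotone
sequence `p`.
-/

namespace Pool.Agent.TH587.ME

open Finset Real MeasureTheory Set
open scoped BigOperators

noncomputable section

/-- the logarithm of the `m`-th term -/
def lam (k : ℕ) (nu : ℕ → ℝ) (m : ℕ) (f : ℝ) : ℝ :=
  nu m + ((k : ℝ) - m) * log (1 - f) + m * log f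

/-- the set of the `f` for which some maximiser is at least `j` -/
def SS (k : ℕ) (nu : ℕ → ℝ) (j : ℕ) : Set ℝ :=
  {f | f ∈ Ioo (0:ℝ) 1 ∧ ∃ m, j ≤ m ∧ m ≤ k ∧ ∀ m' ≤ k, lam k nu m' f ≤ lam k nu m f}

lemma exists_max (k : ℕ) (nu : ℕ → ℝ) (f : ℝ) :
    ∃ m ≤ k, ∀ m' ≤ k, lam k nu m' f ≤ lam k nu m f := by
  obtain ⟨m, hm, h⟩ := Finset.exists_max_image (Finset.range (k + 1)) (fun m => lam k nu m f)
    ⟨0, by simp⟩
  refine ⟨m, by simpa [Nat.lt_succ_iff] using hm, fun m' hm' => h m' ?_⟩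
  simpa [Nat.lt_succ_iff] using hm'

lemma lam_diff (k : ℕ) (nu : ℕ → ℝ) (m m' : ℕ) (f : ℝ) :
    lam k nu m f - lam k nu m' f = nu m - nu m' + ((m : ℝ) - m') * (log f - log (1 - f)) := by
  unfold lam; ring

lemma SS_upper {k : ℕ} {nu : ℕ → ℝ} {j : ℕ} {f g : ℝ} (hf : f ∈ SS k nu j) (hfg : f ≤ g)
    (hg : g < 1) : g ∈ SS k nu j := by
  obtain ⟨⟨hf0, hf1⟩, m, hjm, hmk, hmax⟩ := hf
  have hg0 : 0 < g := lt_of_lt_of_le hf0 hfg
  obtain ⟨n, hnk, hn⟩ := exists_max k nu g
  refine ⟨⟨hg0, hg⟩, ?_⟩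
  by_cases hmn : m ≤ n
  · exact ⟨n, le_trans hjm hmn, hnk, hn⟩
  · push Not at hmn
    refine ⟨m, hjm, hmk, fun m' hm' => le_trans (hn m' hm') ?_⟩
    have h1 := lam_diff k nu m n f
    have h2 := lam_diff k nu m n g
    have h3 := hmax n hnk
    have h4 : log f ≤ log g := Real.log_le_log hf0 hfg
    have h5 : log (1 - g) ≤ log (1 - f) := Real.log_le_log (by linarith) (by linarith)
    have h6 : (0:ℝ) ≤ (m : ℝ) - n := by
      have : (n : ℝ) ≤ m := by exact_mod_cast hmn.le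
      linarith
    nlinarith [mul_nonneg h6 (by linarith : (0:ℝ) ≤ (log g - log (1 - g)) - (log f - log (1 - f)))]

lemma SS_anti {k : ℕ} {nu : ℕ → ℝ} {i j : ℕ} (hij : i ≤ j) : SS k nu j ⊆ SS k nu i := by
  rintro f ⟨hf, m, h1, h2, h3⟩
  exact ⟨hf, m, le_trans hij h1, h2, h3⟩

/-- the threshold -/
def pp (k : ℕ) (nu : ℕ → ℝ) (j : ℕ) : ℝ := sInf (SS k nu j ∪ {1})

lemma pp_bdd (k : ℕ) (nu : ℕ → ℝ) (j : ℕ) : BddBelow (SS k nu j ∪ {1}) := by
  refine ⟨0, ?_⟩
  rintro x (hx | hx)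
  · exact hx.1.1.le
  · rw [mem_singleton_iff] at hx; rw [hx]; norm_num

lemma pp_nonneg (k : ℕ) (nu : ℕ → ℝ) (j : ℕ) : 0 ≤ pp k nu j := by
  refine le_csInf ⟨1, Or.inr rfl⟩ ?_
  rintro x (hx | hx)
  · exact hx.1.1.le
  · rw [mem_singleton_iff] at hx; rw [hx]; norm_num

lemma pp_le_one (k : ℕ) (nu : ℕ → ℝ) (j : ℕ) : pp k nu j ≤ 1 :=
  csInf_le (pp_bdd k nu j) (Or.inr rfl)

lemma pp_mono (k : ℕ) (nu : ℕ → ℝ) : Monotone (pp k nu) := by
  intro i j hij
  exact csInf_le_csInf (pp_bdd k nu i) ⟨1, Or.inr rfl⟩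
    (union_subset_union_left _ (SS_anti hij))

lemma mem_of_gt {k : ℕ} {nu : ℕ → ℝ} {j : ℕ} {f : ℝ} (h : pp k nu j < f) (hf1 : f < 1) :
    f ∈ SS k nu j := by
  have hne : (SS k nu j ∪ {1}).Nonempty := ⟨1, Or.inr rfl⟩
  obtain ⟨x, hx, hxf⟩ := exists_lt_of_csInf_lt hne h
  rcases hx with hx | hx
  · exact SS_upper hx hxf.le hf1
  · rw [mem_singleton_iff] at hx; rw [hx] at hxf; linarith

lemma notMem_of_lt {k : ℕ} {nu : ℕ → ℝ} {j : ℕ} {f : ℝ} (h : f < pp k nu j) :
    f ∉ SS k nu j := by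
  intro hf
  exact absurd (csInf_le (pp_bdd k nu j) (Or.inl hf)) (not_le.mpr h)

/-- the contribution of the coordinate `j` -/
def gg (p c f : ℝ) : ℝ := if f ≤ p then log (1 - f) else c + log f

lemma gg_integrable {p c : ℝ} (hp0 : 0 ≤ p) (hp1 : p ≤ 1) :
    IntervalIntegrable (gg p c) volume 0 1 := by
  have h1 : IntervalIntegrable (fun f : ℝ => log (1 - f)) volume 0 p := by
    have := (intervalIntegral.intervalIntegrable_log' (a := 1 - 0) (b := 1 - p)).comp_sub_left 1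
    simpa using this
  have h2 : IntervalIntegrable (fun f : ℝ => c + log f) volume p 1 :=
    intervalIntegrable_const.add intervalIntegral.intervalIntegrable_log'
  have h1' : IntervalIntegrable (gg p c) volume 0 p := by
    refine h1.congr_ae ?_
    rw [uIoc_of_le hp0]
    refine (ae_restrict_mem measurableSet_Ioc).mono fun x hx => ?_
    simp [gg, hx.2]
  have h2' : IntervalIntegrable (gg p c) volume p 1 := by
    refine h2.congr_ae ?_
    rw [uIoc_of_le hp1]
    refine (ae_restrict_mem measurableSet_Ioc).mono fun x hx => ?_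
    simp [gg, not_le.mpr hx.1]
  exact h1'.trans h2'

lemma gg_integral {p c : ℝ} (hp0 : 0 ≤ p) (hp1 : p ≤ 1) :
    ∫ f in (0:ℝ)..1, gg p c f = c * (1 - p) - 1 + binEntropy p := by
  have h1 : IntervalIntegrable (fun f : ℝ => log (1 - f)) volume 0 p := by
    have := (intervalIntegral.intervalIntegrable_log' (a := 1 - 0) (b := 1 - p)).comp_sub_left 1
    simpa using this
  have h2 : IntervalIntegrable (fun f : ℝ => c + log f) volume p 1 :=
    intervalIntegrable_const.add intervalIntegral.intervalIntegrable_log'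
  have e1 : ∫ f in (0:ℝ)..p, gg p c f = ∫ f in (0:ℝ)..p, log (1 - f) := by
    refine intervalIntegral.integral_congr_ae ?_
    rw [uIoc_of_le hp0]
    refine ae_of_all _ fun x hx => ?_
    simp [gg, hx.2]
  have e2 : ∫ f in p..1, gg p c f = ∫ f in p..1, (c + log f) := by
    refine intervalIntegral.integral_congr_ae ?_
    rw [uIoc_of_le hp1]
    refine ae_of_all _ fun x hx => ?_
    simp [gg, not_le.mpr hx.1]
  have i1 : IntervalIntegrable (gg p c) volume 0 p := by
    refine h1.congr_ae ?_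
    rw [uIoc_of_le hp0]
    refine (ae_restrict_mem measurableSet_Ioc).mono fun x hx => ?_
    simp [gg, hx.2]
  have i2 : IntervalIntegrable (gg p c) volume p 1 := by
    refine h2.congr_ae ?_
    rw [uIoc_of_le hp1]
    refine (ae_restrict_mem measurableSet_Ioc).mono fun x hx => ?_
    simp [gg, not_le.mpr hx.1]
  rw [← intervalIntegral.integral_add_adjacent_intervals i1 i2, e1, e2]
  rw [intervalIntegral.integral_add intervalIntegrable_const
    intervalIntegral.intervalIntegrable_log', intervalIntegral.integral_const, integral_log,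
    intervalIntegral.integral_comp_sub_left (fun x => log x) 1, integral_log]
  simp only [binEntropy, sub_zero, log_one, log_inv, smul_eq_mul]
  ring

/-- the decomposition of the maximal term -/
lemma lam_eq {k n : ℕ} (hn : n ≤ k) (nu : ℕ → ℝ) (f : ℝ) :
    lam k nu n f = nu 0 + ∑ j ∈ Finset.range k,
      (if j + 1 ≤ n then (nu (j + 1) - nu j) + log f else log (1 - f)) := by
  rw [← Finset.sum_range_add_sum_Ico _ hn]
  have h1 : ∑ j ∈ Finset.range n,
      (if j + 1 ≤ n then (nu (j + 1) - nu j) + log f else log (1 - f)) =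
      (nu n - nu 0) + n * log f := by
    rw [Finset.sum_congr rfl (g := fun j => (nu (j + 1) - nu j) + log f)
      (fun j hj => by rw [if_pos (by simpa [Nat.succ_le_iff] using hj)]),
      Finset.sum_add_distrib, Finset.sum_range_sub]
    simp
  have h2 : ∑ j ∈ Finset.Ico n k,
      (if j + 1 ≤ n then (nu (j + 1) - nu j) + log f else log (1 - f)) =
      ((k : ℝ) - n) * log (1 - f) := by
    rw [Finset.sum_congr rfl (g := fun j => log (1 - f))
      (fun j hj => by
        rw [Finset.mem_Ico] at hj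
        rw [if_neg (by omega)])]
    simp [Nat.cast_sub hn]
  rw [h1, h2]
  unfold lam; ring

lemma key_pt (k : ℕ) (nu : ℕ → ℝ) (L : ℝ)
    (hL : ∀ f ∈ Ioo (0:ℝ) 1, ∃ m ≤ k, L ≤ lam k nu m f)
    {f : ℝ} (hf : f ∈ Ioo (0:ℝ) 1) (hne : ∀ j ≤ k, f ≠ pp k nu j) :
    L ≤ nu 0 + ∑ j ∈ Finset.range k, gg (pp k nu (j + 1)) (nu (j + 1) - nu j) f := by
  classical
  obtain ⟨m0, hm0k, hm0⟩ := exists_max k nu f
  set P : ℕ → Prop := fun m => ∀ m' ≤ k, lam k nu m' f ≤ lam k nu m f with hP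
  set n := Nat.findGreatest P k with hn
  have hnk : n ≤ k := Nat.findGreatest_le k
  have hPn : P n := Nat.findGreatest_spec (P := P) hm0k hm0
  obtain ⟨m, hmk, hm⟩ := hL f hf
  have h1 : L ≤ lam k nu n f := le_trans hm (hPn m hmk)
  rw [lam_eq hnk] at h1
  refine le_trans h1 (le_of_eq ?_)
  congr 1
  refine Finset.sum_congr rfl fun j hj => ?_
  rw [Finset.mem_range] at hj
  unfold gg
  by_cases hjn : j + 1 ≤ n
  · have hmem : f ∈ SS k nu (j + 1) := ⟨hf, n, hjn, hnk, hPn⟩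
    have : ¬ f ≤ pp k nu (j + 1) := by
      intro hle
      rcases lt_or_eq_of_le hle with h | h
      · exact notMem_of_lt h hmem
      · exact hne (j + 1) (by omega) h
    rw [if_pos hjn, if_neg this]
  · have : f ≤ pp k nu (j + 1) := by
      by_contra hlt
      push Not at hlt
      obtain ⟨_, m1, h1, h2, h3⟩ := mem_of_gt hlt hf.2
      exact hjn (le_trans h1 (Nat.le_findGreatest h2 h3))
    rw [if_neg hjn, if_pos this]

/-- integrated form -/
lemma key (k : ℕ) (nu : ℕ → ℝ) (L : ℝ)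
    (hL : ∀ f ∈ Ioo (0:ℝ) 1, ∃ m ≤ k, L ≤ lam k nu m f) :
    L ≤ nu 0 + ∑ j ∈ Finset.range k, ((nu (j + 1) - nu j) * (1 - pp k nu (j + 1)) - 1 +
      binEntropy (pp k nu (j + 1))) := by
  have hint : ∀ j ∈ Finset.range k, IntervalIntegrable
      (gg (pp k nu (j + 1)) (nu (j + 1) - nu j)) volume 0 1 := fun j _ =>
    gg_integrable (pp_nonneg _ _ _) (pp_le_one _ _ _)
  have h1 : ∫ f in (0:ℝ)..1, (nu 0 + ∑ j ∈ Finset.range k,
      gg (pp k nu (j + 1)) (nu (j + 1) - nu j) f) =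
      nu 0 + ∑ j ∈ Finset.range k, ((nu (j + 1) - nu j) * (1 - pp k nu (j + 1)) - 1 +
      binEntropy (pp k nu (j + 1))) := by
    rw [intervalIntegral.integral_add intervalIntegrable_const
      (by
        have := IntervalIntegrable.sum (Finset.range k) hint
        refine this.congr_ae (ae_of_all _ fun x => ?_)
        simp)]
    rw [intervalIntegral.integral_finsetSum hint]
    rw [Finset.sum_congr rfl (fun j _ => gg_integral (pp_nonneg k nu (j+1)) (pp_le_one k nu (j+1)))]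
    simp
  have h2 : ∫ f in (0:ℝ)..1, L = L := by simp
  rw [← h1, ← h2]
  refine intervalIntegral.integral_mono_ae_restrict zero_le_one intervalIntegrable_const ?_ ?_
  · refine intervalIntegrable_const.add ?_
    have := IntervalIntegrable.sum (Finset.range k) hint
    refine this.congr_ae (ae_of_all _ fun x => ?_)
    simp
  · have hfin : ((({0, 1} : Finset ℝ) ∪ (Finset.range (k + 1)).image (pp k nu) : Finset ℝ) :
        Set ℝ).Countable := Finset.countable_toSet _
    have ha := hfin.ae_notMem (volume.restrict (Icc (0:ℝ) 1))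
    filter_upwards [ha, ae_restrict_mem measurableSet_Icc] with f hf hf'
    have hf0 : f ≠ 0 := by rintro rfl; exact hf (by simp)
    have hf1 : f ≠ 1 := by rintro rfl; exact hf (by simp)
    refine key_pt k nu L hL ⟨lt_of_le_of_ne hf'.1 (Ne.symm hf0), lt_of_le_of_ne hf'.2 hf1⟩ ?_
    intro j hj he
    refine hf ?_
    simp only [Finset.coe_union, Finset.coe_insert, Finset.coe_singleton, Finset.coe_image,
      Finset.coe_range, Set.mem_union, Set.mem_image]
    right
    exact ⟨j, by simpa [Nat.lt_succ_iff] using hj, he.symm⟩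

/-- Abel summation -/
lemma abel (nu p : ℕ → ℝ) {k : ℕ} (hk : 1 ≤ k) :
    ∑ j ∈ Finset.range k, (nu (j + 1) - nu j) * (1 - p (j + 1)) =
      (1 - p k) * nu k - (1 - p 1) * nu 0 +
        ∑ m ∈ Finset.Ico 1 k, (p (m + 1) - p m) * nu m := by
  induction k, hk using Nat.le_induction with
  | base => simp; ring
  | succ n hn ih =>
    rw [Finset.sum_range_succ, ih, Finset.sum_Ico_succ_top hn]
    ring

lemma sum_shift (g : ℕ → ℝ) (k : ℕ) :
    ∑ j ∈ Finset.range k, g (j + 1) = ∑ j ∈ Finset.Icc 1 k, g j := by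
  induction k with
  | zero => simp
  | succ n ih => rw [Finset.sum_range_succ, ih, Finset.sum_Icc_succ_top (by omega)]

/-- one term of the sum is large -/
lemma exists_term {k : ℕ} {v : ℕ → ℝ} (hv : ∀ m ≤ k, 0 < v m) {L : ℝ}
    (hL : ∀ f ∈ Ioo (0:ℝ) 1,
      exp L ≤ ∑ m ∈ Finset.range (k + 1), (1 - f) ^ (k - m) * f ^ m * v m) :
    ∀ f ∈ Ioo (0:ℝ) 1, ∃ m ≤ k, L - log (k + 1) ≤ lam k (fun m => log (v m)) m f := by
  intro f hf
  have h1f : 0 < 1 - f := by linarith [hf.2]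
  have hex : ∃ m ∈ Finset.range (k + 1),
      exp L / (k + 1) ≤ (1 - f) ^ (k - m) * f ^ m * v m := by
    by_contra hcon
    push Not at hcon
    have h1 : ∑ m ∈ Finset.range (k + 1), (1 - f) ^ (k - m) * f ^ m * v m <
        ∑ m ∈ Finset.range (k + 1), exp L / (k + 1) :=
      Finset.sum_lt_sum_of_nonempty ⟨0, by simp⟩ hcon
    have h2 : ∑ m ∈ Finset.range (k + 1), exp L / ((k:ℝ) + 1) = exp L := by
      rw [Finset.sum_const, Finset.card_range, nsmul_eq_mul]
      push_cast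
      field_simp
    linarith [hL f hf]
  obtain ⟨m, hm, h⟩ := hex
  have hmk : m ≤ k := by simpa [Nat.lt_succ_iff] using hm
  refine ⟨m, hmk, ?_⟩
  have h3 := Real.log_le_log (by positivity) h
  rw [Real.log_div (exp_pos L).ne' (by positivity), log_exp,
    Real.log_mul (by have := hf.1; positivity) (hv m hmk).ne',
    Real.log_mul (pow_pos h1f _).ne' (pow_pos hf.1 _).ne', Real.log_pow, Real.log_pow,
    Nat.cast_sub hmk] at h3
  unfold lam
  linarith

/-- **The entropy lemma.** -/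
theorem entropy_end {k : ℕ} (hk : 1 ≤ k) {v : ℕ → ℝ} (hv : ∀ m ≤ k, 0 < v m) {L : ℝ}
    (hL : ∀ f ∈ Ioo (0:ℝ) 1,
      exp L ≤ ∑ m ∈ Finset.range (k + 1), (1 - f) ^ (k - m) * f ^ m * v m) :
    ∃ p : ℕ → ℝ, Monotone p ∧ (∀ j, 0 ≤ p j ∧ p j ≤ 1) ∧
      L - log (k + 1) + k ≤ (∑ j ∈ Finset.Icc 1 k, binEntropy (p j)) + p 1 * log (v 0) +
        (∑ m ∈ Finset.Ico 1 k, (p (m + 1) - p m) * log (v m)) + (1 - p k) * log (v k) := by
  set nu : ℕ → ℝ := fun m => log (v m) with hnu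
  refine ⟨pp k nu, pp_mono k nu, fun j => ⟨pp_nonneg _ _ _, pp_le_one _ _ _⟩, ?_⟩
  have h := key k nu (L - log (k + 1)) (exists_term hv hL)
  rw [Finset.sum_add_distrib, Finset.sum_sub_distrib, abel nu (pp k nu) hk,
    sum_shift (fun j => binEntropy (pp k nu j))] at h
  simp only [Finset.sum_const, Finset.card_range, nsmul_eq_mul, mul_one] at h
  have e : nu 0 = log (v 0) := rfl
  have e' : nu k = log (v k) := rfl
  rw [e, e'] at h
  have e'' : ∑ m ∈ Finset.Ico 1 k, (pp k nu (m + 1) - pp k nu m) * nu m =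
      ∑ m ∈ Finset.Ico 1 k, (pp k nu (m + 1) - pp k nu m) * log (v m) := rfl
  rw [e''] at h
  linarith

/-- an inequality that holds for all monotone sequences with values in `(0,1)` holds for those with
values in `[0,1]`. -/
lemma closed_of_open {k : ℕ} {nu : ℕ → ℝ} {J c : ℝ}
    (hQ : ∀ p : ℕ → ℝ, Monotone p → (∀ j, 0 < p j ∧ p j < 1) →
      J + (∑ m ∈ Finset.Ico 1 k, (p (m + 1) - p m) * nu m) +
        (∑ j ∈ Finset.Icc 1 k, binEntropy (p j)) ≤ p k * c)
    (p : ℕ → ℝ) (hp : Monotone p) (hp1 : ∀ j, 0 ≤ p j ∧ p j ≤ 1) :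
      J + (∑ m ∈ Finset.Ico 1 k, (p (m + 1) - p m) * nu m) +
        (∑ j ∈ Finset.Icc 1 k, binEntropy (p j)) ≤ p k * c := by
  set q : ℝ → ℕ → ℝ := fun d j => (1 - d) * p j + d / 2 with hq
  have hc1 : Continuous fun d : ℝ => J + (∑ m ∈ Finset.Ico 1 k, (q d (m + 1) - q d m) * nu m) +
        (∑ j ∈ Finset.Icc 1 k, binEntropy (q d j)) := by
    refine (continuous_const.add (continuous_finsetSum _ fun m _ => ?_)).add
      (continuous_finsetSum _ fun j _ => ?_)
    · simp only [hq]; fun_prop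
    · exact binEntropy_continuous.comp (by simp only [hq]; fun_prop)
  have hc2 : Continuous fun d : ℝ => q d k * c := by simp only [hq]; fun_prop
  have hlim1 := (hc1.tendsto 0).mono_left (nhdsWithin_le_nhds (s := Ioi 0))
  have hlim2 := (hc2.tendsto 0).mono_left (nhdsWithin_le_nhds (s := Ioi 0))
  have h := le_of_tendsto_of_tendsto hlim1 hlim2 (by
    have hmem : Ioo (0:ℝ) 1 ∈ nhdsWithin (0:ℝ) (Ioi 0) := Ioo_mem_nhdsGT (by norm_num)
    filter_upwards [hmem] with d hd
    refine hQ (q d) ?_ ?_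
    · intro i j hij
      simp only [hq]
      have := hp hij
      nlinarith [hd.1, hd.2]
    · intro j
      simp only [hq]
      have := hp1 j
      constructor
      · nlinarith [hd.1, hd.2]
      · nlinarith [hd.1, hd.2])
  simpa [hq] using h

/-- **The end of the proof of PAIR / IN.**  From the hull bound for all `f` and the inequality (Q')
(in logarithmic form) one gets `exp L * I ≤ (k + 1) * exp (-k) * v k`. -/
theorem pair_end {k : ℕ} (hk : 1 ≤ k) {v : ℕ → ℝ} (hv0 : v 0 = 1) (hv : ∀ m ≤ k, 0 < v m)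
    {L : ℝ} (hL : ∀ f ∈ Ioo (0:ℝ) 1,
      exp L ≤ ∑ m ∈ Finset.range (k + 1), (1 - f) ^ (k - m) * f ^ m * v m)
    {I : ℝ} (hI : 0 < I)
    (hQ : ∀ p : ℕ → ℝ, Monotone p → (∀ j, 0 < p j ∧ p j < 1) →
      log I + (∑ m ∈ Finset.Ico 1 k, (p (m + 1) - p m) * log (v m)) +
        (∑ j ∈ Finset.Icc 1 k, binEntropy (p j)) ≤ p k * log (v k)) :
    exp L * I ≤ (k + 1) * exp (-k) * v k := by
  obtain ⟨p, hp, hp1, h⟩ := entropy_end hk hv hL
  have h2 := closed_of_open (nu := fun m => log (v m)) hQ p hp hp1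
  rw [hv0, log_one, mul_zero, add_zero] at h
  have h3 : L + log I ≤ log (k + 1) + (-k) + log (v k) := by linarith
  have h4 := Real.exp_le_exp.mpr h3
  rw [exp_add, exp_add, exp_add, exp_log hI, exp_log (by positivity),
    exp_log (hv k le_rfl)] at h4
  exact h4

/-- the same with the hull bound only for a dense set of parameters -/
theorem pair_end_dense {k : ℕ} (hk : 1 ≤ k) {v : ℕ → ℝ} (hv0 : v 0 = 1)
    (hv : ∀ m ≤ k, 0 < v m) {D : Set ℝ} (hD : Dense D)
    {M : ℝ} (hM : 0 < M) (hL : ∀ f ∈ Ioo (0:ℝ) 1, f ∈ D →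
      M ≤ ∑ m ∈ Finset.range (k + 1), (1 - f) ^ (k - m) * f ^ m * v m)
    {I : ℝ} (hI : 0 < I)
    (hQ : ∀ p : ℕ → ℝ, Monotone p → (∀ j, 0 < p j ∧ p j < 1) →
      log I + (∑ m ∈ Finset.Ico 1 k, (p (m + 1) - p m) * log (v m)) +
        (∑ j ∈ Finset.Icc 1 k, binEntropy (p j)) ≤ p k * log (v k)) :
    M * I ≤ (k + 1) * exp (-k) * v k := by
  have hL' : ∀ f ∈ Ioo (0:ℝ) 1,
      exp (log M) ≤ ∑ m ∈ Finset.range (k + 1), (1 - f) ^ (k - m) * f ^ m * v m := by
    intro f hf
    rw [exp_log hM]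
    have hcont : Continuous fun f : ℝ =>
        ∑ m ∈ Finset.range (k + 1), (1 - f) ^ (k - m) * f ^ m * v m := by
      fun_prop
    have hcl : f ∈ closure (Ioo (0:ℝ) 1 ∩ D) := hD.open_subset_closure_inter isOpen_Ioo hf
    have := closure_minimal (s := Ioo (0:ℝ) 1 ∩ D)
      (t := {f | M ≤ ∑ m ∈ Finset.range (k + 1), (1 - f) ^ (k - m) * f ^ m * v m})
      (fun x hx => hL x hx.1 hx.2) (isClosed_le continuous_const hcont)
    exact this hcl
  have := pair_end hk hv0 hv hL' hI hQ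
  rwa [exp_log hM] at this

/-- the form with `s = f / (1 - f)`: `M * (1 + s)^k ≤ a * ∑ s^m * v m` for a dense set of `s` -/
theorem pair_end_s {k : ℕ} (hk : 1 ≤ k) {v : ℕ → ℝ} (hv0 : v 0 = 1)
    (hv : ∀ m ≤ k, 0 < v m) {D : Set ℝ} (hD : Dense D) {M a : ℝ} (hM : 0 < M) (ha : 0 < a)
    (hL : ∀ s : ℝ, 0 < s → s ∈ D →
      M * (1 + s) ^ k ≤ a * ∑ m ∈ Finset.range (k + 1), s ^ m * v m)
    {I : ℝ} (hI : 0 < I)
    (hQ : ∀ p : ℕ → ℝ, Monotone p → (∀ j, 0 < p j ∧ p j < 1) →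
      log I + (∑ m ∈ Finset.Ico 1 k, (p (m + 1) - p m) * log (v m)) +
        (∑ j ∈ Finset.Icc 1 k, binEntropy (p j)) ≤ p k * log (v k)) :
    M * I ≤ (k + 1) * exp (-k) * (a * v k) := by
  -- all `s > 0`
  have hall : ∀ s : ℝ, 0 < s →
      M * (1 + s) ^ k ≤ a * ∑ m ∈ Finset.range (k + 1), s ^ m * v m := by
    intro s hs
    have hc1 : Continuous fun s : ℝ => M * (1 + s) ^ k := by fun_prop
    have hc2 : Continuous fun s : ℝ => a * ∑ m ∈ Finset.range (k + 1), s ^ m * v m := by fun_prop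
    have hcl : s ∈ closure (Ioi (0:ℝ) ∩ D) := hD.open_subset_closure_inter isOpen_Ioi hs
    exact closure_minimal (s := Ioi (0:ℝ) ∩ D)
      (t := {s | M * (1 + s) ^ k ≤ a * ∑ m ∈ Finset.range (k + 1), s ^ m * v m})
      (fun x hx => hL x hx.1 hx.2) (isClosed_le hc1 hc2) hcl
  have h := pair_end_dense (M := M / a) hk hv0 hv dense_univ (by positivity) (fun f hf _ => ?_)
    hI hQ
  · rw [div_mul_eq_mul_div, div_le_iff₀ ha] at h
    linarith
  · have h1f : 0 < 1 - f := by linarith [hf.2]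
    have h1 := hall (f / (1 - f)) (div_pos hf.1 h1f)
    have e1 : 1 + f / (1 - f) = 1 / (1 - f) := by field_simp; ring
    rw [e1] at h1
    have h2 : ∑ m ∈ Finset.range (k + 1), (1 - f) ^ (k - m) * f ^ m * v m =
        (1 - f) ^ k * ∑ m ∈ Finset.range (k + 1), (f / (1 - f)) ^ m * v m := by
      rw [Finset.mul_sum]
      refine Finset.sum_congr rfl fun m hm => ?_
      have hmk : m ≤ k := by simpa [Nat.lt_succ_iff] using hm
      have : (1 - f) ^ k = (1 - f) ^ (k - m) * (1 - f) ^ m := by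
        rw [← pow_add, Nat.sub_add_cancel hmk]
      rw [this, div_pow]
      field_simp
    rw [h2, div_le_iff₀ ha]
    have h3 := mul_le_mul_of_nonneg_left h1 (pow_pos h1f k).le
    have h4 : (1 - f) ^ k * (M * (1 / (1 - f)) ^ k) = M := by
      rw [one_div, inv_pow]
      field_simp
    rw [h4] at h3
    calc M ≤ _ := h3
      _ = _ := by ring

end

end Pool.Agent.TH587.ME
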