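import Pool.Agent.TH587.ME.End

set_option autoImplicit false

/-!
The version of the entropy lemma in which the hull bound is known only for the finitely many
parameters `i / n^2`, `n ≤ i ≤ n^2 - n`.
-/

namespace Pool.Agent.TH587.ME

open Finset Real MeasureTheory Set
open scoped BigOperators

noncomputable section

lemma key_pt' (k : ℕ) (nu : ℕ → ℝ) {f L : ℝ}
    (hL : ∃ m ≤ k, L ≤ lam k nu m f)
    (hf : f ∈ Ioo (0:ℝ) 1) (hne : ∀ j ≤ k, f ≠ pp k nu j) :
    L ≤ nu 0 + ∑ j ∈ Finset.range k, gg (pp k nu (j + 1)) (nu (j + 1) - nu j) f := by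
  classical
  obtain ⟨m0, hm0k, hm0⟩ := exists_max k nu f
  set P : ℕ → Prop := fun m => ∀ m' ≤ k, lam k nu m' f ≤ lam k nu m f with hP
  set n := Nat.findGreatest P k with hn
  have hnk : n ≤ k := Nat.findGreatest_le k
  have hPn : P n := Nat.findGreatest_spec (P := P) hm0k hm0
  obtain ⟨m, hmk, hm⟩ := hL
  have h1 : L ≤ lam k nu n f := le_trans hm (hPn m hmk)
  rw [lam_eq hnk] at h1
  refine le_trans h1 (le_of_eq ?_)
  congr 1
  refine Finset.sum_congr rfl fun j hj => ?_
  rw [Finset.mem_range] at hj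
  unfold gg
  by_cases hjn : j + 1 ≤ n
  · have hmem : f ∈ SS k nu (j + 1) := ⟨hf, n, hjn, hnk, hPn⟩
    have : ¬ f ≤ pp k nu (j + 1) := by
      intro hle
      rcases lt_or_eq_of_le hle with h | h
      · exact notMem_of_lt h hmem
      · exact hne (j + 1) (by omega) h
    rw [if_pos hjn, if_neg this]
  · have : f ≤ pp k nu (j + 1) := by
      by_contra hlt
      push Not at hlt
      obtain ⟨_, m1, h1, h2, h3⟩ := mem_of_gt hlt hf.2
      exact hjn (le_trans h1 (Nat.le_findGreatest h2 h3))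
    rw [if_neg hjn, if_pos this]

/-- integrated form with a variable lower bound -/
lemma key' (k : ℕ) (nu : ℕ → ℝ) (L : ℝ → ℝ) (hLi : IntervalIntegrable L volume 0 1)
    (hL : ∀ f ∈ Ioo (0:ℝ) 1, ∃ m ≤ k, L f ≤ lam k nu m f) :
    ∫ f in (0:ℝ)..1, L f ≤
      nu 0 + ∑ j ∈ Finset.range k, ((nu (j + 1) - nu j) * (1 - pp k nu (j + 1)) - 1 +
      binEntropy (pp k nu (j + 1))) := by
  have hint : ∀ j ∈ Finset.range k, IntervalIntegrable
      (gg (pp k nu (j + 1)) (nu (j + 1) - nu j)) volume 0 1 := fun j _ =>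
    gg_integrable (pp_nonneg _ _ _) (pp_le_one _ _ _)
  have h1 : ∫ f in (0:ℝ)..1, (nu 0 + ∑ j ∈ Finset.range k,
      gg (pp k nu (j + 1)) (nu (j + 1) - nu j) f) =
      nu 0 + ∑ j ∈ Finset.range k, ((nu (j + 1) - nu j) * (1 - pp k nu (j + 1)) - 1 +
      binEntropy (pp k nu (j + 1))) := by
    rw [intervalIntegral.integral_add intervalIntegrable_const
      (by
        have := IntervalIntegrable.sum (Finset.range k) hint
        refine this.congr_ae (ae_of_all _ fun x => ?_)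
        simp)]
    rw [intervalIntegral.integral_finsetSum hint]
    rw [Finset.sum_congr rfl (fun j _ => gg_integral (pp_nonneg k nu (j+1)) (pp_le_one k nu (j+1)))]
    simp
  rw [← h1]
  refine intervalIntegral.integral_mono_ae_restrict zero_le_one hLi ?_ ?_
  · refine intervalIntegrable_const.add ?_
    have := IntervalIntegrable.sum (Finset.range k) hint
    refine this.congr_ae (ae_of_all _ fun x => ?_)
    simp
  · have hfin : ((({0, 1} : Finset ℝ) ∪ (Finset.range (k + 1)).image (pp k nu) : Finset ℝ) :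
        Set ℝ).Countable := Finset.countable_toSet _
    have ha := hfin.ae_notMem (volume.restrict (Icc (0:ℝ) 1))
    filter_upwards [ha, ae_restrict_mem measurableSet_Icc] with f hf hf'
    have hf0 : f ≠ 0 := by rintro rfl; exact hf (by simp)
    have hf1 : f ≠ 1 := by rintro rfl; exact hf (by simp)
    have hf01 : f ∈ Ioo (0:ℝ) 1 :=
      ⟨lt_of_le_of_ne hf'.1 (Ne.symm hf0), lt_of_le_of_ne hf'.2 hf1⟩
    refine key_pt' k nu (hL f hf01) hf01 ?_
    intro j hj he
    refine hf ?_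
    simp only [Finset.coe_union, Finset.coe_insert, Finset.coe_singleton, Finset.coe_image,
      Finset.coe_range, Set.mem_union, Set.mem_image]
    right
    exact ⟨j, by simpa [Nat.lt_succ_iff] using hj, he.symm⟩

/-- the loss near `0` -/
def l1 (p f : ℝ) : ℝ := if f ≤ p then log p - log f else 0

lemma l1_int {p : ℝ} (hp0 : 0 < p) (hp1 : p ≤ 1) :
    IntervalIntegrable (l1 p) volume 0 1 ∧ ∫ f in (0:ℝ)..1, l1 p f = p := by
  have h1 : IntervalIntegrable (fun f : ℝ => log p - log f) volume 0 p :=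
    intervalIntegrable_const.sub intervalIntegral.intervalIntegrable_log'
  have i1 : IntervalIntegrable (l1 p) volume 0 p := by
    refine h1.congr_ae ?_
    rw [uIoc_of_le hp0.le]
    refine (ae_restrict_mem measurableSet_Ioc).mono fun x hx => ?_
    simp [l1, hx.2]
  have i2 : IntervalIntegrable (l1 p) volume p 1 := by
    refine (intervalIntegrable_const (c := (0:ℝ))).congr_ae ?_
    rw [uIoc_of_le hp1]
    refine (ae_restrict_mem measurableSet_Ioc).mono fun x hx => ?_
    simp [l1, not_le.mpr hx.1]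
  refine ⟨i1.trans i2, ?_⟩
  have e1 : ∫ f in (0:ℝ)..p, l1 p f = ∫ f in (0:ℝ)..p, (log p - log f) := by
    refine intervalIntegral.integral_congr_ae ?_
    rw [uIoc_of_le hp0.le]
    refine ae_of_all _ fun x hx => ?_
    simp [l1, hx.2]
  have e2 : ∫ f in p..1, l1 p f = ∫ f in p..1, (0:ℝ) := by
    refine intervalIntegral.integral_congr_ae ?_
    rw [uIoc_of_le hp1]
    refine ae_of_all _ fun x hx => ?_
    simp [l1, not_le.mpr hx.1]
  rw [← intervalIntegral.integral_add_adjacent_intervals i1 i2, e1, e2,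
    intervalIntegral.integral_sub intervalIntegrable_const
      intervalIntegral.intervalIntegrable_log', integral_log]
  simp

/-- the loss near `1` -/
def l2 (p f : ℝ) : ℝ := l1 p (1 - f)

lemma l2_int {p : ℝ} (hp0 : 0 < p) (hp1 : p ≤ 1) :
    IntervalIntegrable (l2 p) volume 0 1 ∧ ∫ f in (0:ℝ)..1, l2 p f = p := by
  obtain ⟨h1, h2⟩ := l1_int hp0 hp1
  constructor
  · have := (h1.comp_sub_left 1)
    simp only [sub_zero, sub_self] at this
    exact this.symm
  · have := intervalIntegral.integral_comp_sub_left (a := 0) (b := 1) (fun x => l1 p x) 1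
    simp only [sub_zero, sub_self] at this
    unfold l2
    rw [this, h2]

/-- The polynomial of the hull bound. -/
def SP (k : ℕ) (v : ℕ → ℝ) (f : ℝ) : ℝ :=
  ∑ m ∈ Finset.range (k + 1), (1 - f) ^ (k - m) * f ^ m * v m

lemma SP_up {k : ℕ} {v : ℕ → ℝ} (hv : ∀ m ≤ k, 0 < v m) {f g : ℝ} (hf : 0 < f) (hfg : f ≤ g)
    (hg : g < 1) : (f / g) ^ k * SP k v g ≤ SP k v f := by
  have hg0 : 0 < g := lt_of_lt_of_le hf hfg
  unfold SP
  rw [Finset.mul_sum]
  refine Finset.sum_le_sum fun m hm => ?_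
  have hmk : m ≤ k := by simpa [Nat.lt_succ_iff] using hm
  have h1 : (f / g) ^ k ≤ (f / g) ^ m :=
    pow_le_pow_of_le_one (by positivity) ((div_le_one hg0).mpr hfg) hmk
  have h2 : (1 - g) ^ (k - m) ≤ (1 - f) ^ (k - m) :=
    pow_le_pow_left₀ (by linarith) (by linarith) _
  have h3 : 0 < v m := hv m hmk
  have h4 : 0 ≤ (1 - g) ^ (k - m) := pow_nonneg (by linarith) _
  calc (f / g) ^ k * ((1 - g) ^ (k - m) * g ^ m * v m)
      ≤ (f / g) ^ m * ((1 - g) ^ (k - m) * g ^ m * v m) := by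
        apply mul_le_mul_of_nonneg_right h1
        positivity
    _ = (1 - g) ^ (k - m) * f ^ m * v m := by
        rw [div_pow]; field_simp
    _ ≤ (1 - f) ^ (k - m) * f ^ m * v m := by
        apply mul_le_mul_of_nonneg_right _ h3.le
        apply mul_le_mul_of_nonneg_right h2 (by positivity)

lemma SP_down {k : ℕ} {v : ℕ → ℝ} (hv : ∀ m ≤ k, 0 < v m) {f g : ℝ} (hg : 0 < g) (hgf : g ≤ f)
    (hf : f < 1) : ((1 - f) / (1 - g)) ^ k * SP k v g ≤ SP k v f := by
  have hg1 : 0 < 1 - g := by linarith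
  have hf1 : 0 < 1 - f := by linarith
  unfold SP
  rw [Finset.mul_sum]
  refine Finset.sum_le_sum fun m hm => ?_
  have hmk : m ≤ k := by simpa [Nat.lt_succ_iff] using hm
  have h1 : ((1 - f) / (1 - g)) ^ k ≤ ((1 - f) / (1 - g)) ^ (k - m) :=
    pow_le_pow_of_le_one (by positivity) ((div_le_one hg1).mpr (by linarith)) (Nat.sub_le _ _)
  have h2 : g ^ m ≤ f ^ m := pow_le_pow_left₀ hg.le hgf _
  have h3 : 0 < v m := hv m hmk
  calc ((1 - f) / (1 - g)) ^ k * ((1 - g) ^ (k - m) * g ^ m * v m)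
      ≤ ((1 - f) / (1 - g)) ^ (k - m) * ((1 - g) ^ (k - m) * g ^ m * v m) := by
        apply mul_le_mul_of_nonneg_right h1
        positivity
    _ = (1 - f) ^ (k - m) * g ^ m * v m := by
        rw [div_pow]; field_simp
    _ ≤ (1 - f) ^ (k - m) * f ^ m * v m := by
        apply mul_le_mul_of_nonneg_right _ h3.le
        apply mul_le_mul_of_nonneg_left h2 (by positivity)

/-- one term of the sum is large, pointwise version -/
lemma exists_term' {k : ℕ} {v : ℕ → ℝ} (hv : ∀ m ≤ k, 0 < v m) {L f : ℝ}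
    (hf : f ∈ Ioo (0:ℝ) 1) (hL : exp L ≤ SP k v f) :
    ∃ m ≤ k, L - log (k + 1) ≤ lam k (fun m => log (v m)) m f := by
  have h1f : 0 < 1 - f := by linarith [hf.2]
  have hex : ∃ m ∈ Finset.range (k + 1),
      exp L / (k + 1) ≤ (1 - f) ^ (k - m) * f ^ m * v m := by
    by_contra hcon
    push Not at hcon
    have h1 : ∑ m ∈ Finset.range (k + 1), (1 - f) ^ (k - m) * f ^ m * v m <
        ∑ m ∈ Finset.range (k + 1), exp L / (k + 1) :=
      Finset.sum_lt_sum_of_nonempty ⟨0, by simp⟩ hcon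
    have h2 : ∑ m ∈ Finset.range (k + 1), exp L / ((k:ℝ) + 1) = exp L := by
      rw [Finset.sum_const, Finset.card_range, nsmul_eq_mul]
      push_cast
      field_simp
    have h3 : SP k v f = ∑ m ∈ Finset.range (k + 1), (1 - f) ^ (k - m) * f ^ m * v m := rfl
    linarith
  obtain ⟨m, hm, h⟩ := hex
  have hmk : m ≤ k := by simpa [Nat.lt_succ_iff] using hm
  refine ⟨m, hmk, ?_⟩
  have h3 := Real.log_le_log (by positivity) h
  rw [Real.log_div (exp_pos L).ne' (by positivity), log_exp,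
    Real.log_mul (by have := hf.1; positivity) (hv m hmk).ne',
    Real.log_mul (pow_pos h1f _).ne' (pow_pos hf.1 _).ne', Real.log_pow, Real.log_pow,
    Nat.cast_sub hmk] at h3
  unfold lam
  linarith

/-- **Entropy lemma from finitely many parameters**: the parameters form a set `R` with
`a, 1 - b ∈ R` such that every `f ∈ [a, 1-b]` is close to a member of `R`. -/
theorem entropy_net {k : ℕ} (hk : 1 ≤ k) {v : ℕ → ℝ} (hv : ∀ m ≤ k, 0 < v m) {L e a b : ℝ}
    (he : 0 ≤ e) {R : Set ℝ} (hR : R ⊆ Ioo 0 1) (ha : a ∈ R) (hb : 1 - b ∈ R)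
    (hnet : ∀ f, a ≤ f → f ≤ 1 - b → ∃ g ∈ R,
      (g ≤ f ∧ 1 - g ≤ (1 + e) * (1 - f)) ∨ (f ≤ g ∧ g ≤ (1 + e) * f))
    (hL : ∀ f ∈ R, exp L ≤ SP k v f) :
    ∃ p : ℕ → ℝ, Monotone p ∧ (∀ j, 0 ≤ p j ∧ p j ≤ 1) ∧
      L - log (k + 1) - k * (log (1 + e) + a + b) + k ≤
        (∑ j ∈ Finset.Icc 1 k, binEntropy (p j)) + p 1 * log (v 0) +
        (∑ m ∈ Finset.Ico 1 k, (p (m + 1) - p m) * log (v m)) + (1 - p k) * log (v k) := by
  set nu : ℕ → ℝ := fun m => log (v m) with hnu
  have ha0 : 0 < a := (hR ha).1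
  have ha1 : a < 1 := (hR ha).2
  have hb0 : 0 < b := by linarith [(hR hb).2]
  have hb1 : b < 1 := by linarith [(hR hb).1]
  refine ⟨pp k nu, pp_mono k nu, fun j => ⟨pp_nonneg _ _ _, pp_le_one _ _ _⟩, ?_⟩
  set LL : ℝ → ℝ := fun f => (L - log (k + 1) - k * log (1 + e)) - k * l1 a f - k * l2 b f
    with hLL
  obtain ⟨i1, e1⟩ := l1_int ha0 ha1.le
  obtain ⟨i2, e2⟩ := l2_int hb0 hb1.le
  have hi : IntervalIntegrable LL volume 0 1 :=
    (intervalIntegrable_const.sub (i1.const_mul _)).sub (i2.const_mul _)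
  have hint : ∫ f in (0:ℝ)..1, LL f = (L - log (k + 1) - k * log (1 + e)) - k * a - k * b := by
    simp only [hLL]
    rw [intervalIntegral.integral_sub (intervalIntegrable_const.sub (i1.const_mul _))
      (i2.const_mul _), intervalIntegral.integral_sub intervalIntegrable_const (i1.const_mul _),
      intervalIntegral.integral_const_mul, intervalIntegral.integral_const_mul, e1, e2]
    simp
  have hlog0 : 0 ≤ log (1 + e) := Real.log_nonneg (by linarith)
  have hl1 : ∀ f, 0 < f → 0 ≤ l1 a f := by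
    intro f hf
    unfold l1
    split_ifs with h
    · have := Real.log_le_log hf h; linarith
    · exact le_rfl
  have hl2 : ∀ f, f < 1 → 0 ≤ l2 b f := by
    intro f hf
    unfold l2 l1
    split_ifs with h
    · have := Real.log_le_log (by linarith : 0 < 1 - f) h; linarith
    · exact le_rfl
  have hk0 : (0:ℝ) ≤ k := Nat.cast_nonneg k
  have hpt : ∀ f ∈ Ioo (0:ℝ) 1, ∃ m ≤ k, LL f ≤ lam k nu m f := by
    intro f hf
    have h1f : 0 < 1 - f := by linarith [hf.2]
    -- a lower bound for the polynomial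
    have hS : exp (L - k * log (1 + e) - k * l1 a f - k * l2 b f) ≤ SP k v f := by
      -- a general step
      have step : ∀ (g c : ℝ), 0 < c → exp L ≤ SP k v g → c ^ k * SP k v g ≤ SP k v f →
          -log c ≤ log (1 + e) + l1 a f + l2 b f →
          exp (L - k * log (1 + e) - k * l1 a f - k * l2 b f) ≤ SP k v f := by
        intro g c hc h1 h2 h3
        refine le_trans ?_ h2
        have h4 : c ^ k = exp (k * log c) := by
          rw [← Real.log_pow, Real.exp_log (pow_pos hc k)]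
        calc exp (L - k * log (1 + e) - k * l1 a f - k * l2 b f)
            ≤ exp (k * log c + L) := by
              apply Real.exp_le_exp.mpr
              nlinarith
          _ = c ^ k * exp L := by rw [Real.exp_add, h4]
          _ ≤ c ^ k * SP k v g := mul_le_mul_of_nonneg_left h1 (pow_pos hc k).le
      rcases lt_or_ge f a with h | h
      · refine step a (f / a) (div_pos hf.1 ha0) (hL a ha) (SP_up hv hf.1 h.le ha1) ?_
        have : l1 a f = log a - log f := by unfold l1; rw [if_pos h.le]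
        rw [Real.log_div hf.1.ne' ha0.ne', this]
        linarith [hl2 f hf.2]
      · rcases lt_or_ge (1 - b) f with h' | h'
        · have hb' : 0 < 1 - (1 - b) := by linarith
          refine step (1 - b) ((1 - f) / (1 - (1 - b))) (div_pos h1f hb') (hL _ hb)
            (SP_down hv (hR hb).1 h'.le hf.2) ?_
          have : l2 b f = log b - log (1 - f) := by
            unfold l2 l1; rw [if_pos (by linarith)]
          rw [Real.log_div h1f.ne' hb'.ne', this]
          have e3 : 1 - (1 - b) = b := by ring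
          rw [e3]
          linarith [hl1 f hf.1]
        · obtain ⟨g, hg, hg' | hg'⟩ := hnet f h h'
          · have hg1 : 0 < 1 - g := by linarith [(hR hg).2]
            refine step g ((1 - f) / (1 - g)) (div_pos h1f hg1) (hL g hg)
              (SP_down hv (hR hg).1 hg'.1 hf.2) ?_
            rw [Real.log_div h1f.ne' hg1.ne']
            have := Real.log_le_log hg1 hg'.2
            rw [Real.log_mul (by linarith) h1f.ne'] at this
            linarith [hl1 f hf.1, hl2 f hf.2]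
          · have hg1 : 0 < g := (hR hg).1
            refine step g (f / g) (div_pos hf.1 hg1) (hL g hg)
              (SP_up hv hf.1 hg'.1 (hR hg).2) ?_
            rw [Real.log_div hf.1.ne' hg1.ne']
            have := Real.log_le_log hg1 hg'.2
            rw [Real.log_mul (by linarith) hf.1.ne'] at this
            linarith [hl1 f hf.1, hl2 f hf.2]
    obtain ⟨m, hm, h⟩ := exists_term' hv hf hS
    refine ⟨m, hm, ?_⟩
    simp only [hLL]
    linarith
  have h := key' k nu LL hi hpt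
  rw [hint, Finset.sum_add_distrib, Finset.sum_sub_distrib, abel nu (pp k nu) hk,
    sum_shift (fun j => binEntropy (pp k nu j))] at h
  simp only [Finset.sum_const, Finset.card_range, nsmul_eq_mul, mul_one] at h
  have e : nu 0 = log (v 0) := rfl
  have e' : nu k = log (v k) := rfl
  rw [e, e'] at h
  have e'' : ∑ m ∈ Finset.Ico 1 k, (pp k nu (m + 1) - pp k nu m) * nu m =
      ∑ m ∈ Finset.Ico 1 k, (pp k nu (m + 1) - pp k nu m) * log (v m) := rfl
  rw [e''] at h
  linarith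

/-- the grid of the parameters `i / n^2`, `n ≤ i ≤ n^2 - n` -/
def grid (n : ℕ) : Finset ℝ := (Finset.Icc n (n ^ 2 - n)).image fun i : ℕ => (i : ℝ) / (n : ℝ) ^ 2

lemma grid_net {n : ℕ} (hn : 2 ≤ n) :
    ((grid n : Finset ℝ) : Set ℝ) ⊆ Ioo 0 1 ∧ (1 / (n : ℝ)) ∈ ((grid n : Finset ℝ) : Set ℝ) ∧
    (1 - 1 / (n : ℝ)) ∈ ((grid n : Finset ℝ) : Set ℝ) ∧
    ∀ f : ℝ, 1 / (n : ℝ) ≤ f → f ≤ 1 - 1 / (n : ℝ) → ∃ g ∈ ((grid n : Finset ℝ) : Set ℝ),
      (g ≤ f ∧ 1 - g ≤ (1 + 1 / (n : ℝ)) * (1 - f)) ∨ (f ≤ g ∧ g ≤ (1 + 1 / (n : ℝ)) * f) := by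
  have hn0 : (0:ℝ) < n := by exact_mod_cast (by omega : 0 < n)
  have hn2 : n + n ≤ n ^ 2 := by nlinarith
  have hle : n ≤ n ^ 2 - n := by omega
  have hcast : (((n ^ 2 - n : ℕ)) : ℝ) = (n:ℝ) ^ 2 - n := by
    rw [Nat.cast_sub (by omega)]; push_cast; ring
  refine ⟨?_, ?_, ?_, ?_⟩
  · intro x hx
    simp only [grid, Finset.coe_image, Set.mem_image, Finset.coe_Icc, Set.mem_Icc] at hx
    obtain ⟨i, ⟨hi1, hi2⟩, rfl⟩ := hx
    have h1 : (n:ℝ) ≤ i := by exact_mod_cast hi1
    have h2 : (i:ℝ) ≤ (n:ℝ) ^ 2 - n := by rw [← hcast]; exact_mod_cast hi2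
    constructor
    · have : (0:ℝ) < i := lt_of_lt_of_le hn0 h1
      positivity
    · rw [div_lt_one (by positivity)]; linarith
  · simp only [grid, Finset.coe_image, Set.mem_image, Finset.coe_Icc, Set.mem_Icc]
    exact ⟨n, ⟨le_rfl, hle⟩, by field_simp⟩
  · simp only [grid, Finset.coe_image, Set.mem_image, Finset.coe_Icc, Set.mem_Icc]
    refine ⟨n ^ 2 - n, ⟨hle, le_rfl⟩, ?_⟩
    rw [hcast]; field_simp
  · intro f hf1 hf2
    -- `g = ⌊f n^2⌋ / n^2`
    have hf0 : 0 < f := lt_of_lt_of_le (by positivity) hf1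
    set i := ⌊f * (n:ℝ) ^ 2⌋₊ with hi
    have h1 : (i:ℝ) ≤ f * (n:ℝ) ^ 2 := Nat.floor_le (by positivity)
    have h2 : f * (n:ℝ) ^ 2 < i + 1 := Nat.lt_floor_add_one _
    have hni : n ≤ i := by
      refine Nat.le_floor ?_
      calc (n:ℝ) = 1 / n * (n:ℝ) ^ 2 := by field_simp
        _ ≤ f * (n:ℝ) ^ 2 := by gcongr
    have hin : i ≤ n ^ 2 - n := by
      have : (i:ℝ) ≤ ((n ^ 2 - n : ℕ) : ℝ) := by
        rw [hcast]
        calc (i:ℝ) ≤ f * (n:ℝ) ^ 2 := h1
          _ ≤ (1 - 1 / n) * (n:ℝ) ^ 2 := by gcongr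
          _ = (n:ℝ) ^ 2 - n := by field_simp
      exact_mod_cast this
    refine ⟨(i:ℝ) / (n:ℝ) ^ 2, ?_, Or.inl ⟨?_, ?_⟩⟩
    · simp only [grid, Finset.coe_image, Set.mem_image, Finset.coe_Icc, Set.mem_Icc]
      exact ⟨i, ⟨hni, hin⟩, rfl⟩
    · rw [div_le_iff₀ (by positivity)]; exact h1
    · have h3 : f - 1 / (n:ℝ) ^ 2 < (i:ℝ) / (n:ℝ) ^ 2 := by
        rw [lt_div_iff₀ (by positivity), sub_mul, one_div, inv_mul_cancel₀ (by positivity)]
        linarith
      have h4 : 1 / (n:ℝ) ≤ 1 - f := by linarith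
      have h5 : 1 / (n:ℝ) ^ 2 = 1 / n * (1 / n) := by field_simp
      have h6 : 1 / (n:ℝ) * (1 / n) ≤ 1 / n * (1 - f) := by
        apply mul_le_mul_of_nonneg_left h4 (by positivity)
      nlinarith

/-- **PAIR from finitely many parameters.** -/
theorem pair_end_grid {k : ℕ} (hk : 1 ≤ k) {v : ℕ → ℝ} (hv0 : v 0 = 1)
    (hv : ∀ m ≤ k, 0 < v m) {n : ℕ} (hn : 2 ≤ n) {M : ℝ} (hM : 0 < M)
    (hL : ∀ f ∈ grid n,
      M ≤ ∑ m ∈ Finset.range (k + 1), (1 - f) ^ (k - m) * f ^ m * v m)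
    {I : ℝ} (hI : 0 < I)
    (hQ : ∀ p : ℕ → ℝ, Monotone p → (∀ j, 0 < p j ∧ p j < 1) →
      log I + (∑ m ∈ Finset.Ico 1 k, (p (m + 1) - p m) * log (v m)) +
        (∑ j ∈ Finset.Icc 1 k, binEntropy (p j)) ≤ p k * log (v k)) :
    M * I ≤ (k + 1) * exp (-k + 3 * k / n) * v k := by
  obtain ⟨g1, g2, g3, g4⟩ := grid_net hn
  have hn0 : (0:ℝ) < n := by exact_mod_cast (by omega : 0 < n)
  obtain ⟨p, hp, hp1, h⟩ := entropy_net (L := log M) hk hv (e := 1 / (n:ℝ)) (by positivity) g1 g2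
    g3 g4 (fun f hf => by
      rw [exp_log hM]
      exact hL f (by simpa using hf))
  have h2 := closed_of_open (nu := fun m => log (v m)) hQ p hp hp1
  rw [hv0, log_one, mul_zero, add_zero] at h
  have hlog : log (1 + 1 / (n:ℝ)) ≤ 1 / n := by
    have := Real.log_le_sub_one_of_pos (show (0:ℝ) < 1 + 1 / n by positivity)
    linarith
  have hk0 : (0:ℝ) ≤ k := Nat.cast_nonneg k
  have h5 : (k:ℝ) * (log (1 + 1 / (n:ℝ)) + 1 / n + 1 / n) ≤ 3 * k / n := by
    calc (k:ℝ) * (log (1 + 1 / (n:ℝ)) + 1 / n + 1 / n) ≤ k * (1 / n + 1 / n + 1 / n) := by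
          gcongr
      _ = 3 * k / n := by ring
  have h3 : log M + log I ≤ log (k + 1) + (-k + 3 * k / n) + log (v k) := by linarith
  have h4 := Real.exp_le_exp.mpr h3
  rw [exp_add, exp_add, exp_add, exp_log hI, exp_log hM, exp_log (by positivity),
    exp_log (hv k le_rfl)] at h4
  exact h4

end

end Pool.Agent.TH587.ME
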